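import Mathlib
import Pool.Agent.Helper33.Cont.Final

set_option autoImplicit false

namespace Pool.Agent.Helper6.OldResults.Contiguity

/-- The joint law of `Ω` at `k` consecutive integers is uniformly absolutely continuous with
respect to the product law: for every `ε > 0` there is a constant `C` such that, for all large
`N` and every finite set `s` of `k`-tuples, the first law gives `s` mass at most `C` times the
mass given by the product law, plus `ε`. -/
theorem result (k : ℕ) (ε : ℝ) (hε : 0 < ε) :
    ∃ C : ℝ, ∃ N₀ : ℕ, ∀ N ≥ N₀, ∀ s : Finset (Fin k → ℕ),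
      ∑ ℓ ∈ s, (1 / (N : ℝ)) *
          (((Finset.Icc 1 N).filter
            (fun n => ∀ i : Fin k, ArithmeticFunction.cardFactors (n + (i : ℕ)) = ℓ i)).card : ℝ) ≤
        C * ∑ ℓ ∈ s, ∏ i : Fin k,
          ((1 / (N : ℝ)) *
            (((Finset.Icc 1 N).filter
              (fun n => ArithmeticFunction.cardFactors n = ℓ i)).card : ℝ)) + ε := by
  obtain ⟨C, _, N₀, h⟩ := Pool.Agent.Helper33.Cont.contiguity_sum k ε hε
  exact ⟨C, N₀, h⟩

end Pool.Agent.Helper6.OldResults.Contiguity
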