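import Mathlib
import Pool.Prelude.Def_F_72ad9e24
import Pool.Agent.Helper6.LehmerCount.Total

/-!
The number of composite `n ≤ x` with `n ≡ a(n) (mod φ(n))` is `O(√x / (log x) ^ A)` for every `A`.
-/

namespace Pool.Agent.Results.MP_b50d59_nt.CountLogPower

open Pool.Agent.Helper6.Lehmer Pool.Agent.Helper6.LehmerCount

/-- For every natural number `A` there is a constant `C` such that for all `x ≥ 2` the number of
composite `n` with `4 < n ≤ x` and `n ≡ a(n) (mod φ(n))`, where `a(n)` is the largest exponent in the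
prime factorisation of `n`, is at most `C √x / (log x) ^ A`. -/
theorem result : ∀ A : ℕ, ∃ C : ℝ, ∀ x : ℕ, 2 ≤ x →
    (((Finset.Icc 5 x).filter
      (fun n : ℕ => ¬ n.Prime ∧ n.totient ∣ n - Nca8c8b9b.a n)).card : ℝ) ≤
      C * Real.sqrt x / Real.log x ^ A := by
  classical
  intro A
  obtain ⟨C, hC⟩ := NL_bound' A
  refine ⟨C, fun x hx => le_trans ?_ (hC x hx)⟩
  have h1 : (Finset.Icc 5 x).filter
      (fun n : ℕ => ¬ n.Prime ∧ n.totient ∣ n - Nca8c8b9b.a n) ⊆
      (Finset.Icc 1 x).filter (fun n => IsLehmer n) := by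
    intro n hn
    rw [Finset.mem_filter, Finset.mem_Icc] at hn
    rw [Finset.mem_filter, Finset.mem_Icc]
    exact ⟨⟨by omega, hn.1.2⟩, isLehmer_of_dvd (by omega) hn.2.1 hn.2.2⟩
  have h2 := Finset.card_le_card h1
  unfold NL
  exact_mod_cast h2

end Pool.Agent.Results.MP_b50d59_nt.CountLogPower
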